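import Pool.Agent.Y6.K.Stm

/-! Project EK: the bootstrap, recursive choice of the speeds. -/

open Set Filter Topology

set_option autoImplicit false

namespace Pool.Agent.Y710.EK

open Pool.Agent.Y5 Pool.Agent.Y5.D Pool.Agent.Y6.K

/-- a rapidly decreasing sequence -/
theorem exists_seq (K n β : ℕ → ℝ) (hK : ∀ m, 1 ≤ K m) (hn : ∀ m, 0 ≤ n m) (hβ : ∀ m, 0 < β m) :
    ∃ b : ℕ → ℝ, (∀ m, 0 < b m) ∧ (∀ m, b m ≤ β m) ∧
      ∀ m N, K m * ∑ i ∈ Finset.Ioc m N, n i * b i ≤ b m / 8 := by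
  set P : ℕ → ℝ := fun m => ∏ i ∈ Finset.range (m + 1), K i with hP
  have hP0 : ∀ m, (1 : ℝ) ≤ ∏ l ∈ Finset.range m, K l := by
    intro m
    induction m with
    | zero => simp
    | succ i ih =>
      rw [Finset.prod_range_succ]
      exact one_le_mul_of_one_le_of_one_le ih (hK i)
  have hP1 : ∀ m, 1 ≤ P m := fun m => hP0 (m + 1)
  have hKP : ∀ i m, i ≤ m → K i ≤ P m := by
    intro i m him
    induction m, him using Nat.le_induction with
    | base =>
      have : P i = (∏ l ∈ Finset.range i, K l) * K i := Finset.prod_range_succ _ _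
      rw [this]
      exact le_mul_of_one_le_left (by linarith [hK i]) (hP0 i)
    | succ m hm ih =>
      have : P (m + 1) = P m * K (m + 1) := Finset.prod_range_succ _ _
      rw [this]
      exact ih.trans (le_mul_of_one_le_right (by linarith [hP1 m]) (hK _))
  clear_value P
  obtain ⟨b, hb0, hbs⟩ : ∃ b : ℕ → ℝ, b 0 = β 0 ∧
      ∀ m, b (m + 1) = min (β (m + 1)) (b m / (16 * P m * (n (m + 1) + 1))) :=
    ⟨fun m => Nat.rec (β 0) (fun m x => min (β (m + 1)) (x / (16 * P m * (n (m + 1) + 1)))) m,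
      rfl, fun m => rfl⟩
  have hden : ∀ m, 0 < 16 * P m * (n (m + 1) + 1) := fun m => by
    have := hP1 m
    have := hn (m + 1)
    positivity
  have hpos : ∀ m, 0 < b m := by
    intro m
    induction m with
    | zero => rw [hb0]; exact hβ 0
    | succ m ih =>
      rw [hbs]
      exact lt_min (hβ _) (div_pos ih (hden m))
  have hle : ∀ m, b m ≤ β m := by
    intro m
    cases m with
    | zero => exact hb0.le
    | succ m => rw [hbs]; exact min_le_left _ _
  have hstep : ∀ m, b (m + 1) * (16 * P m * (n (m + 1) + 1)) ≤ b m := by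
    intro m
    rw [← le_div_iff₀ (hden m), hbs]
    exact min_le_right _ _
  have h2 : ∀ m, 2 * b (m + 1) ≤ b m := by
    intro m
    have h1 := hstep m
    have h3 := hP1 m
    have h4 := hn (m + 1)
    have h5 := hpos (m + 1)
    have h6 : 1 ≤ P m * (n (m + 1) + 1) := one_le_mul_of_one_le_of_one_le h3 (by linarith)
    nlinarith
  have h3 : ∀ i m, i ≤ m → 16 * K i * (n (m + 1) * b (m + 1)) ≤ b m := by
    intro i m him
    have h1 := hstep m
    have h4 := hKP i m him
    have h5 := hpos (m + 1)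
    have h6 := hn (m + 1)
    have h7 : 0 ≤ n (m + 1) * b (m + 1) := mul_nonneg h6 h5.le
    have h8 : K i * (n (m + 1) * b (m + 1)) ≤ P m * (n (m + 1) * b (m + 1)) :=
      mul_le_mul_of_nonneg_right h4 h7
    have h9 : 0 ≤ P m * b (m + 1) := mul_nonneg (by linarith [hP1 m]) h5.le
    nlinarith
  refine ⟨b, hpos, hle, fun m N => ?_⟩
  have key : ∀ N, m ≤ N → 16 * K m * ∑ i ∈ Finset.Ioc m N, n i * b i ≤ 2 * b m - 2 * b N := by
    intro N hN
    induction N, hN using Nat.le_induction with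
    | base => simp
    | succ N hN ih =>
      rw [← Finset.insert_Ioc_right_eq_Ioc_add_one hN, Finset.sum_insert (by simp), mul_add]
      have h4 := h3 m N hN
      have h5 := h2 N
      linarith
  rcases le_total m N with h | h
  · have h4 := key N h
    have h5 := hpos N
    nlinarith
  · rw [Finset.Ioc_eq_empty (by omega), Finset.sum_empty, mul_zero]
    have := hpos m
    positivity

/-- recursive choice of a sequence -/
theorem exists_rec (Φ : ℕ → (ℕ → ℝ) → ℝ) : ∃ S : ℕ → ℝ, ∀ m,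
    S m = Φ m (fun i => if i < m then S i else 0) := by
  let g : ℕ → ℕ → ℝ := fun m => Nat.rec (fun _ => 0) (fun m x => fun i => if i = m then Φ m x else x i) m
  have hg0 : g 0 = fun _ => 0 := rfl
  have hgs : ∀ m, g (m + 1) = fun i => if i = m then Φ m (g m) else g m i := fun m => rfl
  have key : ∀ m, g m = fun i => if i < m then g (i + 1) i else 0 := by
    intro m
    induction m with
    | zero => rw [hg0]; funext i; simp
    | succ m ih =>
      funext i
      by_cases him : i = m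
      · subst him
        rw [if_pos (Nat.lt_succ_self _)]
      · rw [hgs]
        show (if i = m then Φ m (g m) else g m i) = _
        rw [if_neg him, ih]
        show (if i < m then g (i + 1) i else 0) = _
        by_cases h : i < m
        · rw [if_pos h, if_pos (by omega)]
        · rw [if_neg h, if_neg (by omega)]
  refine ⟨fun m => g (m + 1) m, fun m => ?_⟩
  show g (m + 1) m = _
  rw [hgs]
  show (if m = m then Φ m (g m) else g m m) = _
  rw [if_pos rfl]
  congr 1
  exact key m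

/-- first exit -/
theorem exit {J : Type} (F : Finset J) (f : J → ℝ → ℝ) (B : J → ℝ) (hB : ∀ j, 0 < B j)
    (hc : ∀ j, ContinuousOn (f j) (Icc 0 60)) (h0 : ∀ j, f j 0 = 0)
    (hout : ∀ j ∉ F, ∀ t ∈ Icc (0 : ℝ) 60, |f j t| ≤ B j)
    (hboot : ∀ θ ∈ Icc (0 : ℝ) 60, (∀ j, ∀ t ∈ Icc 0 θ, |f j t| ≤ B j) →
      ∀ j ∈ F, ∀ t ∈ Icc 0 θ, |f j t| ≤ B j / 2) :
    ∀ j, ∀ t ∈ Icc (0 : ℝ) 60, |f j t| ≤ B j := by
  classical
  by_contra hcon
  push Not at hcon
  obtain ⟨j₀, t₀, ht₀, hj₀⟩ := hcon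
  have hj₀F : j₀ ∈ F := by
    by_contra h
    exact absurd (hout j₀ h t₀ ht₀) (not_le.2 hj₀)
  set E : Set ℝ := ⋃ j ∈ F, (Icc (0 : ℝ) 60 ∩ (fun t => |f j t|) ⁻¹' Ici (B j)) with hE
  have hEc : IsClosed E := by
    refine F.finite_toSet.isClosed_biUnion fun j _ => ?_
    exact (hc j).abs.preimage_isClosed_of_isClosed isClosed_Icc isClosed_Ici
  have hEs : E ⊆ Icc (0 : ℝ) 60 := by
    intro t ht
    rw [hE, mem_iUnion₂] at ht
    obtain ⟨j, _, hj⟩ := ht
    exact hj.1
  have hEn : E.Nonempty := by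
    refine ⟨t₀, ?_⟩
    rw [hE, mem_iUnion₂]
    exact ⟨j₀, hj₀F, ht₀, hj₀.le⟩
  obtain ⟨θ, hθE, hθmin⟩ := (isCompact_Icc.of_isClosed_subset hEc hEs).exists_isLeast hEn
  have hθ := hEs hθE
  rw [hE, mem_iUnion₂] at hθE
  obtain ⟨j₁, hj₁, -, hj₁'⟩ := hθE
  have hθpos : 0 < θ := by
    rcases hθ.1.lt_or_eq with h | h
    · exact h
    · exfalso
      rw [← h] at hj₁'
      have h1 : B j₁ ≤ |f j₁ 0| := hj₁'
      rw [h0, abs_zero] at h1
      linarith [hB j₁]
  have hlt : ∀ t ∈ Ico (0 : ℝ) θ, ∀ j, |f j t| ≤ B j := by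
    intro t ht j
    have ht60 : t ∈ Icc (0 : ℝ) 60 := ⟨ht.1, ht.2.le.trans hθ.2⟩
    by_cases hj : j ∈ F
    · by_contra h
      have : t ∈ E := by
        rw [hE, mem_iUnion₂]
        exact ⟨j, hj, ht60, (not_le.1 h).le⟩
      exact absurd (hθmin this) (not_le.2 ht.2)
    · exact hout j hj t ht60
  have hhalf : ∀ t ∈ Ico (0 : ℝ) θ, |f j₁ t| ≤ B j₁ / 2 := by
    intro t ht
    have ht60 : t ∈ Icc (0 : ℝ) 60 := ⟨ht.1, ht.2.le.trans hθ.2⟩
    exact hboot t ht60 (fun j s hs => hlt s ⟨hs.1, hs.2.trans_lt ht.2⟩ j) j₁ hj₁ t ⟨ht.1, le_rfl⟩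
  have h1 : ∀ᶠ t in 𝓝[Icc (0 : ℝ) 60] θ, B j₁ / 2 < |f j₁ t| := by
    refine ((hc j₁).abs θ hθ).eventually (lt_mem_nhds ?_)
    have : B j₁ ≤ |f j₁ θ| := hj₁'
    linarith [hB j₁]
  have hne : (𝓝[Ico (0 : ℝ) θ] θ).NeBot := right_nhdsWithin_Ico_neBot hθpos
  have hsub : Ico (0 : ℝ) θ ⊆ Icc 0 60 := fun t ht => ⟨ht.1, ht.2.le.trans hθ.2⟩
  obtain ⟨t, ht1, ht2⟩ := ((h1.filter_mono (nhdsWithin_mono θ hsub)).and self_mem_nhdsWithin).exists
  exact absurd (hhalf t ht2) (not_le.2 ht1)

section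

variable {J : Type} (o : J → ℕ) (R : ℕ → ℝ)

/-- bound for the derivative of a mode -/
noncomputable def spd (S : ℕ → ℝ) : Ix J → ℝ
  | Sum.inl n => R n
  | Sum.inr j => |S (o j)| + R (o j)

/-- bound for the derivative of `H` -/
noncomputable def hb (c : Ix J → Ix J → Ix J → ℝ) (Q : J → Finset (Ix J × Ix J)) (S : ℕ → ℝ) (w : J) : ℝ :=
  ∑ p ∈ Q w, |c (Sum.inr w) p.1 p.2| * (1 + spd o R S p.1 + spd o R S p.2)

theorem spd_nonneg (hR : ∀ m, 1 ≤ R m) (S : ℕ → ℝ) (a : Ix J) : 0 ≤ spd o R S a := by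
  cases a with
  | inl n => exact zero_le_one.trans (hR n)
  | inr j => exact add_nonneg (abs_nonneg _) (zero_le_one.trans (hR _))

theorem hb_nonneg (hR : ∀ m, 1 ≤ R m) (c : Ix J → Ix J → Ix J → ℝ) (Q : J → Finset (Ix J × Ix J))
    (S : ℕ → ℝ) (w : J) : 0 ≤ hb o R c Q S w :=
  Finset.sum_nonneg fun p _ => mul_nonneg (abs_nonneg _)
    (by linarith [spd_nonneg o R hR S p.1, spd_nonneg o R hR S p.2])

theorem hb_congr (c : Ix J → Ix J → Ix J → ℝ) (Q : J → Finset (Ix J × Ix J))
    {S S' : ℕ → ℝ} (w : J) (hQ : ∀ p ∈ Q w, ∀ j, p.1 = Sum.inr j ∨ p.2 = Sum.inr j → o j < o w)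
    (h : ∀ i < o w, S i = S' i) : hb o R c Q S w = hb o R c Q S' w := by
  refine Finset.sum_congr rfl fun p hp => ?_
  have key : ∀ a, a = p.1 ∨ a = p.2 → spd o R S a = spd o R S' a := by
    intro a ha
    cases a with
    | inl n => rfl
    | inr j =>
      show |S (o j)| + R (o j) = |S' (o j)| + R (o j)
      rw [h _ (hQ p hp j (ha.imp Eq.symm Eq.symm))]
  rw [key _ (Or.inl rfl), key _ (Or.inr rfl)]

end

theorem t_BOOT : S_AVG → S_DEC → S_BOOT := by
  intro hAVG hDEC J o σ τ A c β hKer hβ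
  classical
  obtain ⟨R, hR1, hR2, hR3, -⟩ := hDEC J o σ τ A c hKer
  have hR0 : ∀ m, 0 ≤ R m := fun m => zero_le_one.trans (hR1 m)
  choose Q hQ1 hQ2 hQ3 using fun w => hR3 w (o w)
  have hGfin : ∀ m, {j | o j = m}.Finite := fun m => (hKer.fin m).subset fun j hj => le_of_eq hj
  set G : ℕ → Finset J := fun m => (hGfin m).toFinset with hG
  have hGm : ∀ m j, j ∈ G m ↔ o j = m := fun m j => (hGfin m).mem_toFinset
  choose C hC1 hC using fun m => hAVG (R m) (G m).card (hR0 m)
  obtain ⟨b, hbpos, hbβ, hbsum⟩ := exists_seq (fun m => C m * R m) (fun m => ((G m).card : ℝ)) β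
    (fun m => one_le_mul_of_one_le_of_one_le (hC1 m) (hR1 m)) (fun m => Nat.cast_nonneg _) hβ
  set hm : ℕ → (ℕ → ℝ) → ℝ := fun m S => ∑ w ∈ G m, hb o R c Q S w with hhm
  obtain ⟨S, hS⟩ := exists_rec (fun m s => max 1 (8 * C m * hm m s / b m))
  have hS1 : ∀ m, 1 ≤ S m := fun m => by rw [hS]; exact le_max_left _ _
  have hSh : ∀ m, 8 * C m * hm m S / b m ≤ S m := by
    intro m
    have h1 : hm m (fun i => if i < m then S i else 0) = hm m S := by
      refine Finset.sum_congr rfl fun w hw => ?_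
      have how := (hGm m w).1 hw
      exact hb_congr o R c Q w (hQ1 w) fun i hi => if_pos (by rwa [how] at hi)
    conv_rhs => rw [hS]
    rw [← h1]
    exact le_max_right _ _
  have hhm0 : ∀ m, 0 ≤ hm m S := fun m => Finset.sum_nonneg fun w _ => hb_nonneg o R hR1 c Q S w
  refine ⟨S, hS1, fun N z hz => ?_⟩
  -- the modes of the levels `≤ N`
  set F : Finset J := (hKer.fin N).toFinset with hF
  have hFm : ∀ j, j ∈ F ↔ o j ≤ N := fun j => (hKer.fin N).mem_toFinset
  set FF : Finset (Ix J) := (Finset.range (N + 1)).image Sum.inl ∪ F.image Sum.inr with hFF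
  have hFFm : ∀ a, a ∉ FF → ∀ t, z a t = 0 := by
    intro a ha t
    apply hz.zero
    by_contra h
    apply ha
    cases a with
    | inl n =>
      exact Finset.mem_union_left _ (Finset.mem_image_of_mem _ (Finset.mem_range.2
        (Nat.lt_succ_of_le (not_lt.1 h))))
    | inr j =>
      exact Finset.mem_union_right _ (Finset.mem_image_of_mem _ ((hFm j).2 (show o j ≤ N from not_lt.1 h)))
  have hFm' : ∀ j ∉ F, ∀ t, z (Sum.inr j) t = 0 := fun j hj t =>
    hz.zero (Sum.inr j) (not_le.1 fun h => hj ((hFm j).2 h)) t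
  have hsumm : ∀ t, Summable (fun a => z a t ^ 2) := fun t =>
    summable_of_ne_finset_zero (s := FF) fun a ha => by rw [hFFm a ha t]; norm_num
  have hadm : ∀ t ∈ Icc (0 : ℝ) 60, Adm (fun a => z a t) := fun t ht =>
    ⟨hsumm t, hz.energy t ht, summable_of_ne_finset_zero (s := F) fun j hj => by
      rw [hFm' j hj t, abs_zero]⟩
  have hone : ∀ a, ∀ t ∈ Icc (0 : ℝ) 60, |z a t| ≤ 1 := by
    intro a t ht
    have h1 : z a t ^ 2 ≤ 1 :=
      ((hsumm t).le_tsum a fun i _ => sq_nonneg _).trans (hz.energy t ht)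
    exact abs_le_one_iff_mul_self_le_one.2 (by rwa [← sq])
  set dz : Ix J → ℝ → ℝ := fun a t => if lv o a ≤ N then
    Kz S o σ τ (fun a => z a t) a + qd c (fun a => z a t) a else 0 with hdz
  have hder : ∀ a, ∀ t ∈ Icc (0 : ℝ) 60, HasDerivWithinAt (z a) (dz a t) (Icc 0 60) t := by
    intro a t ht
    by_cases ha : lv o a ≤ N
    · rw [hdz]
      show HasDerivWithinAt (z a) (if lv o a ≤ N then _ else _) _ _
      rw [if_pos ha]
      exact hz.deriv a ha t ht
    · rw [hdz]
      show HasDerivWithinAt (z a) (if lv o a ≤ N then _ else _) _ _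
      rw [if_neg ha]
      have h1 : z a = fun _ => 0 := funext fun s => hz.zero a (not_le.1 ha) s
      rw [h1]
      exact hasDerivWithinAt_const _ _ _
  have hτ1 : ∀ j, |τ j| ≤ 1 := by
    intro j
    rcases hKer.unit j with h | h
    · rw [h, abs_zero]; exact zero_le_one
    · exact abs_le_one_iff_mul_self_le_one.2 (by rw [← sq, h])
  have hdzb : ∀ a, ∀ t ∈ Icc (0 : ℝ) 60, |dz a t| ≤ spd o R S a := by
    intro a t ht
    show |if lv o a ≤ N then _ else _| ≤ _
    split_ifs with ha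
    · have h1 := (hR2 _ (hadm t ht) a).2
      cases a with
      | inl n =>
        show |0 + _| ≤ R n
        rw [zero_add]
        exact h1
      | inr j =>
        refine (abs_add_le _ _).trans (add_le_add ?_ h1)
        show |S (o j) * τ j * z (Sum.inr (σ j)) t| ≤ |S (o j)|
        rw [abs_mul, abs_mul, mul_assoc]
        refine mul_le_of_le_one_right (abs_nonneg _) ?_
        exact mul_le_one₀ (hτ1 j) (abs_nonneg _) (hone _ t ht)
    · rw [abs_zero]
      exact spd_nonneg o R hR1 S a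
  have hcont : ∀ a, ContinuousOn (z a) (Icc 0 60) := fun a t ht => (hder a t ht).continuousWithinAt
  have hfin := exit F (fun j => z (Sum.inr j)) (fun j => b (o j)) (fun j => hbpos _)
    (fun j => hcont _) (fun j => hz.init.2.2 j) (fun j hj t _ => by
      show |z (Sum.inr j) t| ≤ b (o j)
      rw [hFm' j hj t, abs_zero]
      exact (hbpos _).le) ?_
  · exact fun j t ht => (hfin j t ht).trans (hbβ _)
  intro θ hθ hgood j hj t ht
  have hsub : Icc 0 θ ⊆ Icc (0 : ℝ) 60 := Icc_subset_Icc_right hθ.2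
  set m := o j with hmdef
  have hmN : m ≤ N := (hFm j).1 hj
  set η : ℝ := R m * ∑ i ∈ Finset.Ioc m N, ((G i).card : ℝ) * b i with hη
  have hsum0 : 0 ≤ ∑ i ∈ Finset.Ioc m N, ((G i).card : ℝ) * b i :=
    Finset.sum_nonneg fun i _ => mul_nonneg (Nat.cast_nonneg _) (hbpos i).le
  have hη0 : 0 ≤ η := mul_nonneg (hR0 m) hsum0
  -- the tail
  have htail : ∀ s ∈ Icc (0 : ℝ) θ, tail o m (fun a => z a s) ≤
      ∑ i ∈ G m, |z (Sum.inr i) s| + ∑ i ∈ Finset.Ioc m N, ((G i).card : ℝ) * b i := by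
    intro s hs
    have h1 : tail o m (fun a => z a s) = ∑ i ∈ F, if m ≤ o i then |z (Sum.inr i) s| else 0 := by
      refine tsum_eq_sum fun i hi => ?_
      show (if m ≤ o i then |z (Sum.inr i) s| else 0) = 0
      rw [hFm' i hi s, abs_zero, ite_self]
    have h2 : ∑ i ∈ F, (if m ≤ o i then |z (Sum.inr i) s| else 0) =
        ∑ l ∈ Finset.Icc m N, ∑ i ∈ G l, |z (Sum.inr i) s| := by
      rw [← Finset.sum_filter, ← Finset.sum_fiberwise_of_maps_to (s := F.filter fun i => m ≤ o i)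
        (t := Finset.Icc m N) (g := o) (fun i hi => by
          rw [Finset.mem_filter] at hi
          exact Finset.mem_Icc.2 ⟨hi.2, (hFm i).1 hi.1⟩)]
      refine Finset.sum_congr rfl fun l hl => ?_
      rw [Finset.mem_Icc] at hl
      refine Finset.sum_congr ?_ fun _ _ => rfl
      ext i
      rw [Finset.mem_filter, Finset.mem_filter, hFm, hGm]
      constructor
      · exact fun h => h.2
      · rintro rfl
        exact ⟨⟨hl.2, hl.1⟩, rfl⟩
    rw [h1, h2, ← Finset.Ioc_insert_left hmN, Finset.sum_insert (by simp)]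
    refine add_le_add le_rfl (Finset.sum_le_sum fun l _ => ?_)
    rw [← nsmul_eq_mul]
    refine Finset.sum_le_card_nsmul _ _ _ fun i hi => ?_
    have := hgood i s hs
    rwa [(hGm l i).1 hi] at this
  have hbnd := hC m (G m) (fun i => ⟨σ i, (hGm m _).2 ((hKer.grp _).trans ((hGm m _).1 i.2))⟩)
    (fun i => τ i) (S m) θ (hm m S) η (fun i s => z (Sum.inr i) s)
    (fun i s => ∑ p ∈ Q i, c (Sum.inr (i : J)) p.1 p.2 * z p.1 s * z p.2 s)
    (fun i s => ∑ p ∈ Q i, (c (Sum.inr (i : J)) p.1 p.2 * dz p.1 s * z p.2 s +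
      c (Sum.inr (i : J)) p.1 p.2 * z p.1 s * dz p.2 s))
    (fun i s => qd c (fun a => z a s) (Sum.inr (i : J)) -
      ∑ p ∈ Q i, c (Sum.inr (i : J)) p.1 p.2 * z p.1 s * z p.2 s)
    (by rw [Fintype.card_coe]) (fun i => Subtype.ext (hKer.inv _)) (fun i => hKer.skew _)
    (fun i => hKer.unit _) (hS1 m) hθ.1 hθ.2 (hhm0 m) hη0
    (by
      intro i s hs
      have hoi : o (i : J) = m := (hGm m _).1 i.2
      have h1 := (hz.deriv (Sum.inr (i : J)) (by show o (i : J) ≤ N; rw [hoi]; exact hmN) s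
        (hsub hs)).mono hsub
      refine h1.congr_deriv ?_
      have hSi : S (o (i : J)) = S m := congrArg S hoi
      show S (o (i : J)) * τ i * z (Sum.inr (σ i)) s + qd c (fun a => z a s) (Sum.inr (i : J)) = _
      rw [hSi]
      ring)
    (by
      intro i s hs
      refine HasDerivWithinAt.fun_sum fun p _ => ?_
      have h1 := ((hder p.1 s (hsub hs)).mono hsub).const_mul (c (Sum.inr (i : J)) p.1 p.2)
      exact h1.mul ((hder p.2 s (hsub hs)).mono hsub))
    (by
      intro i s hs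
      have hi : hb o R c Q S (i : J) ≤ hm m S :=
        Finset.single_le_sum (f := fun w => hb o R c Q S w) (fun w _ => hb_nonneg o R hR1 c Q S w) i.2
      have hs60 := hsub hs
      constructor
      · refine le_trans (Finset.abs_sum_le_sum_abs _ _) (le_trans (Finset.sum_le_sum fun p _ => ?_) hi)
        have e1 := hone p.1 s hs60
        have e2 := hone p.2 s hs60
        have e3 := spd_nonneg o R hR1 S p.1
        have e4 := spd_nonneg o R hR1 S p.2
        rw [abs_mul, abs_mul, mul_assoc]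
        refine mul_le_mul_of_nonneg_left ?_ (abs_nonneg _)
        have e5 : |z p.1 s| * |z p.2 s| ≤ 1 := mul_le_one₀ e1 (abs_nonneg _) e2
        linarith
      · refine le_trans (Finset.abs_sum_le_sum_abs _ _) (le_trans (Finset.sum_le_sum fun p _ => ?_) hi)
        have e1 := hone p.1 s hs60
        have e2 := hone p.2 s hs60
        have e3 := hdzb p.1 s hs60
        have e4 := hdzb p.2 s hs60
        have e5 : |dz p.1 s| * |z p.2 s| ≤ spd o R S p.1 :=
          (mul_le_of_le_one_right (abs_nonneg _) e2).trans e3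
        have e6 : |z p.1 s| * |dz p.2 s| ≤ spd o R S p.2 :=
          (mul_le_of_le_one_left (abs_nonneg _) e1).trans e4
        refine (abs_add_le _ _).trans ?_
        rw [abs_mul, abs_mul, abs_mul, abs_mul, mul_assoc, mul_assoc, ← mul_add]
        refine mul_le_mul_of_nonneg_left ?_ (abs_nonneg _)
        linarith)
    (by
      intro i hi s _
      rw [hQ2 i hi le_rfl, Finset.sum_empty])
    (by
      intro i s hs
      have hoi : o (i : J) = m := (hGm m _).1 i.2
      have h1 := hQ3 i _ (hadm s (hsub hs))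
      rw [hoi] at h1
      refine h1.trans ?_
      have h2 := mul_le_mul_of_nonneg_left (htail s hs) (hR0 m)
      rw [mul_add] at h2
      rw [Finset.sum_coe_sort (G m) (fun i => |z (Sum.inr i) s|)]
      exact h2)
    (fun i => hz.init.2.2 i) ⟨j, (hGm m j).2 rfl⟩ t ht
  refine hbnd.trans ?_
  have h1 : C m * (hm m S / S m) ≤ b m / 8 := by
    have hSpos : 0 < S m := zero_lt_one.trans_le (hS1 m)
    have h2 := hSh m
    rw [div_le_iff₀ (hbpos m)] at h2
    rw [← mul_div_assoc, div_le_div_iff₀ hSpos (by norm_num)]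
    linarith
  have h2 : C m * η ≤ b m / 8 := by
    have := hbsum m N
    rw [hη, ← mul_assoc]
    exact this
  rw [mul_add]
  have := hbpos m
  show _ ≤ b m / 2
  linarith

end Pool.Agent.Y710.EK
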